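import Mathlib

/-!
# The matroid median problem has no polynomial rank-oracle algorithm

Let `N` be the direct sum of `n` copies of the uniform matroid `U_{3,4}` (the gadgets). In a gadget
with elements `{0,1,2,3}` put `P_false = {0,1}` and `P_true = {2,3}`. Add `3n+2` new elements
`F₀` freely and truncate to rank `5n+2`. For `x : Fin n → Bool` let `Hx x` be the union of the sets
`P_(x j)` in the gadgets `j`; then `B x = F₀ ∪ Hx x` is a basis which can be turned into a
circuit-hyperplane, giving the matroid `Mx x`. Rank oracle calls distinguish the `2^n` matroids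
`Mx x` only by hitting the set `B x`. The instance consists of `4L` copies of every `P_b` in every
gadget, one copy of `F₀`, and `(8n-10)L+1` copies of the ground set, where `L = 3n+2`. The
multiplicities are tuned so that `Hx x` is the unique minimiser of `Φ` for the matroid `Mx x`
(`unique_min`). Hence an algorithm making at most `Q` oracle calls succeeds for at most `Q+1` of the
`2^n` matroids (`core`), although the ground set has only `7n+2` elements and `k = O(n²)`.
-/

namespace Pool.Agent.Results.MP_8f56b8_lc.OracleLowerBound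

open Finset

/-- The rank, as a natural number, of a set `A` of elements in the matroid `M`. -/
noncomputable def rk {S : Type} (M : Matroid S) (A : Finset S) : ℕ :=
  (M.eRk (A : Set S)).toNat

/-- The objective function `Φ(H) = 2 ∑ᵢ r(Fᵢ ∪ H) - k r(H)` of the matroid median problem. -/
def Phi {S : Type} [DecidableEq S] {k : ℕ} (r : Finset S → ℕ) (F : Fin k → Finset S)
    (H : Finset S) : ℤ :=
  2 * ∑ i, (r (F i ∪ H) : ℤ) - k * (r H : ℤ)

/-- Deterministic adaptive oracle algorithms on the ground set `Fin m`: either output a set, or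
query a set `A` and go on in a way depending on the answer. -/
inductive QueryTree (m : ℕ) : Type
  | output (H : Finset (Fin m)) : QueryTree m
  | query (A : Finset (Fin m)) (next : ℕ → QueryTree m) : QueryTree m

namespace QueryTree

/-- The output of the algorithm when every query `A` is answered by `r A`: the output of
`output H` is `H`, and that of `query A next` is the output of `next (r A)`. -/
noncomputable def run {m : ℕ} (r : Finset (Fin m) → ℕ) (t : QueryTree m) : Finset (Fin m) :=
  QueryTree.rec (fun H => H) (fun A _ out => out (r A)) t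

/-- The number of oracle calls made when every query `A` is answered by `r A`: none for
`output H`, and one more than for `next (r A)` for `query A next`. -/
noncomputable def calls {m : ℕ} (r : Finset (Fin m) → ℕ) (t : QueryTree m) : ℕ :=
  QueryTree.rec (fun _ => 0) (fun A _ num => num (r A) + 1) t

lemma run_output {m : ℕ} (r : Finset (Fin m) → ℕ) (H : Finset (Fin m)) :
    (output H).run r = H := rfl

lemma run_query {m : ℕ} (r : Finset (Fin m) → ℕ) (A : Finset (Fin m)) (next : ℕ → QueryTree m) :
    (query A next).run r = (next (r A)).run r := rfl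

lemma calls_output {m : ℕ} (r : Finset (Fin m) → ℕ) (H : Finset (Fin m)) :
    (output H).calls r = 0 := rfl

lemma calls_query {m : ℕ} (r : Finset (Fin m) → ℕ) (A : Finset (Fin m))
    (next : ℕ → QueryTree m) : (query A next).calls r = (next (r A)).calls r + 1 := rfl

end QueryTree

/-! ### The adversary argument -/

lemma count_success {m : ℕ} {X : Type} [Fintype X] [DecidableEq X] (f : Finset (Fin m) → ℕ)
    (g : X → Finset (Fin m) → ℕ) (z h : X → Finset (Fin m)) (hz : Function.Injective z)
    (hh : Function.Injective h) (hg : ∀ x A, A ≠ z x → g x A = f A) (T : QueryTree m) :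
    ∀ Q : ℕ, (univ.filter (fun x => T.run (g x) = h x ∧ T.calls (g x) ≤ Q)).card ≤ Q + 1 := by
  induction T with
  | output H =>
    intro Q
    refine le_trans ?_ (Nat.le_add_left 1 Q)
    rw [card_le_one]
    intro a ha b hb
    simp only [mem_filter, mem_univ, true_and, QueryTree.run_output] at ha hb
    exact hh (ha.1.symm.trans hb.1)
  | query A next ih =>
    intro Q
    rcases Q with _ | Q
    · have : (univ.filter (fun x => (QueryTree.query A next).run (g x) = h x ∧
          (QueryTree.query A next).calls (g x) ≤ 0)) = ∅ := by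
        ext x
        simp [QueryTree.calls_query]
      rw [this]; simp
    · have hsub : (univ.filter (fun x => (QueryTree.query A next).run (g x) = h x ∧
          (QueryTree.query A next).calls (g x) ≤ Q + 1)) ⊆
          (univ.filter (fun x => z x = A)) ∪
          (univ.filter (fun x => (next (f A)).run (g x) = h x ∧
            (next (f A)).calls (g x) ≤ Q)) := by
        intro x hx
        simp only [mem_filter, mem_univ, true_and, mem_union, QueryTree.run_query,
          QueryTree.calls_query] at hx ⊢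
        by_cases hA : z x = A
        · exact Or.inl hA
        · right
          have : g x A = f A := hg x A (fun h' => hA h'.symm)
          rw [this] at hx
          exact ⟨hx.1, by omega⟩
      refine (card_le_card hsub).trans ((card_union_le _ _).trans ?_)
      have h1 : (univ.filter (fun x => z x = A)).card ≤ 1 := by
        rw [card_le_one]
        intro a ha b hb
        simp only [mem_filter, mem_univ, true_and] at ha hb
        exact hz (ha.trans hb.symm)
      have h2 := ih (f A) Q
      omega

/-! ### The ground set and its parts -/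

/-- `n` gadgets with four elements each, and `3n+2` further elements. -/
abbrev T (n : ℕ) : Type := (Fin n × Fin 4) ⊕ Fin (3 * n + 2)

/-- the part of `Z` in the gadget `j` -/
def gad {n : ℕ} (Z : Finset (T n)) (j : Fin n) : Finset (Fin 4) :=
  univ.filter (fun i => Sum.inl (j, i) ∈ Z)

/-- the part of `Z` outside the gadgets -/
def res {n : ℕ} (Z : Finset (T n)) : Finset (Fin (3 * n + 2)) :=
  univ.filter (fun i => Sum.inr i ∈ Z)

open Classical in
/-- the set with given parts -/
noncomputable def mk {n : ℕ} (a : Fin n → Finset (Fin 4)) (b : Finset (Fin (3 * n + 2))) : Finset (T n) :=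
  univ.filter (fun t => Sum.elim (fun p => p.2 ∈ a p.1) (fun i => i ∈ b) t)

/-- the two sides of a gadget -/
def P : Bool → Finset (Fin 4)
  | false => {0, 1}
  | true => {2, 3}

@[simp] lemma mem_gad {n : ℕ} {Z : Finset (T n)} {j : Fin n} {i : Fin 4} :
    i ∈ gad Z j ↔ Sum.inl (j, i) ∈ Z := by simp [gad]

@[simp] lemma mem_res {n : ℕ} {Z : Finset (T n)} {i : Fin (3 * n + 2)} :
    i ∈ res Z ↔ Sum.inr i ∈ Z := by simp [res]

@[simp] lemma inl_mem_mk {n : ℕ} {a : Fin n → Finset (Fin 4)} {b : Finset (Fin (3 * n + 2))}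
    {j : Fin n} {i : Fin 4} : (Sum.inl (j, i) : T n) ∈ mk a b ↔ i ∈ a j := by
  simp [mk]

@[simp] lemma inr_mem_mk {n : ℕ} {a : Fin n → Finset (Fin 4)} {b : Finset (Fin (3 * n + 2))}
    {i : Fin (3 * n + 2)} : (Sum.inr i : T n) ∈ mk a b ↔ i ∈ b := by
  simp [mk]

@[simp] lemma gad_mk {n : ℕ} (a : Fin n → Finset (Fin 4)) (b : Finset (Fin (3 * n + 2)))
    (j : Fin n) : gad (mk a b) j = a j := by ext; simp

@[simp] lemma res_mk {n : ℕ} (a : Fin n → Finset (Fin 4)) (b : Finset (Fin (3 * n + 2))) :
    res (mk a b) = b := by ext; simp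

lemma ext_parts {n : ℕ} {Z W : Finset (T n)} (h : ∀ j, gad Z j = gad W j)
    (h' : res Z = res W) : Z = W := by
  ext t
  rcases t with ⟨j, i⟩ | i
  · rw [← mem_gad, h, mem_gad]
  · rw [← mem_res, h', mem_res]

lemma card_parts {n : ℕ} (Z : Finset (T n)) :
    Z.card = ∑ j, (gad Z j).card + (res Z).card := by
  have h1 : Z.card = (Z.toLeft).card + (Z.toRight).card :=
    (Finset.card_toLeft_add_card_toRight).symm
  have h2 : Z.toRight = res Z := by ext; simp
  have h3 : (Z.toLeft).card = ∑ j, (gad Z j).card := by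
    rw [Finset.card_eq_sum_card_fiberwise (f := Prod.fst) (t := univ) (by simp)]
    refine Finset.sum_congr rfl fun j _ => ?_
    refine Finset.card_bij (fun p _ => p.2) ?_ ?_ ?_
    · rintro ⟨j', i⟩ hp
      simp only [mem_filter, mem_toLeft] at hp
      obtain ⟨hp, rfl⟩ := hp
      simpa using hp
    · rintro ⟨j1, i1⟩ h1 ⟨j2, i2⟩ h2 h
      simp only [mem_filter, mem_toLeft] at h1 h2
      simp only at h
      rw [h1.2, h2.2, h]
    · intro i hi
      exact ⟨(j, i), by simpa using hi, rfl⟩
  rw [h1, h2, h3]

/-! ### The matroids -/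

/-- the hidden set: all elements outside the gadgets and side `x j` of each gadget `j` -/
noncomputable def B {n : ℕ} (x : Fin n → Bool) : Finset (T n) := mk (fun j => P (x j)) univ

/-- the set consisting of side `x j` of each gadget `j` -/
noncomputable def Hx {n : ℕ} (x : Fin n → Bool) : Finset (T n) := mk (fun j => P (x j)) ∅

lemma card_P (b : Bool) : (P b).card = 2 := by cases b <;> decide

lemma card_B {n : ℕ} (x : Fin n → Bool) : (B x).card = 5 * n + 2 := by
  rw [card_parts]
  simp [B, card_P]
  ring

/-- independence in the matroid with hidden set `B x` -/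
def Ind {n : ℕ} (x : Fin n → Bool) (I : Finset (T n)) : Prop :=
  (∀ j, (gad I j).card ≤ 3) ∧ I.card ≤ 5 * n + 2 ∧ I ≠ B x

lemma gad_mono {n : ℕ} {I J : Finset (T n)} (h : I ⊆ J) (j : Fin n) : gad I j ⊆ gad J j := by
  intro i hi
  rw [mem_gad] at hi ⊢
  exact h hi

lemma res_mono {n : ℕ} {I J : Finset (T n)} (h : I ⊆ J) : res I ⊆ res J := by
  intro i hi
  rw [mem_res] at hi ⊢
  exact h hi

lemma gad_insert_inr {n : ℕ} (I : Finset (T n)) (i : Fin (3 * n + 2)) (j : Fin n) :
    gad (insert (Sum.inr i) I) j = gad I j := by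
  ext a; simp

lemma gad_insert_inl {n : ℕ} (I : Finset (T n)) (i : Fin 4) (j j' : Fin n) :
    gad (insert (Sum.inl (j, i)) I) j' = if j' = j then insert i (gad I j) else gad I j' := by
  ext a
  by_cases h : j' = j
  · subst h; simp
  · simp [h]

/-- replacing part of the hidden set: the swapped set is independent -/
lemma swap_ind {n : ℕ} (x : Fin n → Bool) {I : Finset (T n)} {e' : T n} (hI : I ⊆ B x)
    (hc : I.card = 5 * n + 1) (he' : e' ∉ B x) : Ind x (insert e' I) := by
  refine ⟨fun j => ?_, ?_, ?_⟩
  · have hg : (gad I j).card ≤ 2 := by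
      refine (card_le_card (gad_mono hI j)).trans ?_
      simp [B, card_P]
    rcases e' with ⟨j', i⟩ | i
    · rw [gad_insert_inl]
      split_ifs with h
      · subst h
        exact (card_insert_le _ _).trans (by omega)
      · omega
    · rw [gad_insert_inr]; omega
  · exact (card_insert_le _ _).trans (by omega)
  · intro h
    exact he' (h ▸ mem_insert_self e' I)

lemma ind_subset {n : ℕ} (x : Fin n → Bool) {I J : Finset (T n)} (hJ : Ind x J) (h : I ⊆ J) :
    Ind x I := by
  refine ⟨fun j => (card_le_card (gad_mono h j)).trans (hJ.1 j), (card_le_card h).trans hJ.2.1, ?_⟩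
  rintro rfl
  refine hJ.2.2 (eq_of_subset_of_card_le h ?_).symm
  rw [card_B]
  exact hJ.2.1

lemma ind_aug {n : ℕ} (x : Fin n → Bool) {I J : Finset (T n)} (hI : Ind x I) (hJ : Ind x J)
    (hlt : I.card < J.card) : ∃ e ∈ J, e ∉ I ∧ Ind x (insert e I) := by
  classical
  have key : ∃ e ∈ J, e ∉ I ∧ ∀ j, (gad (insert e I) j).card ≤ 3 := by
    by_contra hcon
    push Not at hcon
    have h1 : ∀ j, (gad J j).card ≤ (gad I j).card := by
      intro j
      by_cases hs : gad J j ⊆ gad I j
      · exact card_le_card hs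
      · obtain ⟨i, hiJ, hiI⟩ := not_subset.1 hs
        rw [mem_gad] at hiJ
        have hiI' : (Sum.inl (j, i) : T n) ∉ I := fun h => hiI (mem_gad.2 h)
        obtain ⟨j', hj'⟩ := hcon _ hiJ hiI'
        rw [gad_insert_inl] at hj'
        split_ifs at hj' with h
        · subst h
          rw [card_insert_of_notMem hiI] at hj'
          have := hJ.1 j'
          omega
        · have := hI.1 j'
          omega
    have h2 : res J ⊆ res I := by
      intro i hi
      rw [mem_res] at hi ⊢
      by_contra hiI
      obtain ⟨j', hj'⟩ := hcon _ hi hiI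
      rw [gad_insert_inr] at hj'
      have := hI.1 j'
      omega
    have h3 := card_parts I
    have h4 := card_parts J
    have h5 := card_le_card h2
    have h6 : ∑ j, (gad J j).card ≤ ∑ j, (gad I j).card := sum_le_sum fun j _ => h1 j
    omega
  obtain ⟨e, heJ, heI, hg⟩ := key
  have hc : (insert e I).card = I.card + 1 := card_insert_of_notMem heI
  have hJc := hJ.2.1
  by_cases hB : insert e I = B x
  · have hIc : I.card = 5 * n + 1 := by
      have := card_B x
      rw [← hB] at this
      omega
    have hJcard : J.card = 5 * n + 2 := by omega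
    have hnot : ¬ J ⊆ B x := by
      intro hsub
      refine hJ.2.2 (eq_of_subset_of_card_le hsub ?_)
      rw [card_B, hJcard]
    obtain ⟨e', he'J, he'B⟩ := not_subset.1 hnot
    have hIB : I ⊆ B x := by rw [← hB]; exact subset_insert _ _
    exact ⟨e', he'J, fun h => he'B (hIB h), swap_ind x hIB hIc he'B⟩
  · exact ⟨e, heJ, heI, hg, by omega, hB⟩

/-- The matroid with hidden circuit-hyperplane `B x`. -/
noncomputable def Mx {n : ℕ} (x : Fin n → Bool) : Matroid (T n) :=
  (IndepMatroid.ofFinset Set.univ (Ind x)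
    ⟨fun j => by simp [gad], by simp, by
      intro h
      have := card_B x
      rw [← h] at this
      simp at this⟩
    (fun _ _ hJ h => ind_subset x hJ h) (fun _ _ hI hJ h => ind_aug x hI hJ h)
    (fun _ _ => Set.subset_univ _)).matroid

lemma Mx_ground {n : ℕ} (x : Fin n → Bool) : (Mx x).E = Set.univ := rfl

lemma Mx_indep {n : ℕ} (x : Fin n → Bool) (I : Finset (T n)) :
    (Mx x).Indep (I : Set (T n)) ↔ Ind x I := by
  simp [Mx, IndepMatroid.ofFinset_indep]

/-- the rank without truncation and hidden set -/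
def a {n : ℕ} (Z : Finset (T n)) : ℕ := ∑ j, min 3 (gad Z j).card + (res Z).card

lemma rk_eq {n : ℕ} (x : Fin n → Bool) (Z : Finset (T n)) :
    rk (Mx x) Z = if Z = B x then 5 * n + 1 else min (5 * n + 2) (a Z) := by
  classical
  obtain ⟨I', hI'⟩ := (Mx x).exists_isBasis (Z : Set (T n)) (by rw [Mx_ground]; exact Set.subset_univ _)
  have hfin : I'.Finite := (Z.finite_toSet).subset hI'.subset
  obtain ⟨I, rfl⟩ := hfin.exists_finset_coe
  have hrk : rk (Mx x) Z = I.card := by
    rw [rk, ← hI'.encard_eq_eRk]
    simp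
  have hI : Ind x I := (Mx_indep x I).1 hI'.indep
  have hsub : I ⊆ Z := by exact_mod_cast hI'.subset
  have hmax : ∀ e ∈ Z, e ∉ I → ¬ Ind x (insert e I) := by
    intro e he heI hcon
    have h1 := (Mx_indep x (insert e I)).2 hcon
    have h2 : (Mx x).Dep (insert e (I : Set (T n))) :=
      hI'.insert_dep ⟨by simpa using he, by simpa using heI⟩
    rw [coe_insert] at h1
    exact h2.not_indep h1
  rw [hrk]
  have hIsum := card_parts I
  split_ifs with hZ
  · -- `Z` is the hidden set
    subst hZ
    have hne : I ≠ B x := hI.2.2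
    have hlt : I.card < 5 * n + 2 := by
      rw [← card_B x]
      exact card_lt_card (hsub.ssubset_of_ne hne)
    by_contra hcon
    obtain ⟨e, he, heI⟩ := exists_of_ssubset (hsub.ssubset_of_ne hne)
    refine hmax e he heI ⟨fun j => ?_, ?_, ?_⟩
    · have : insert e I ⊆ B x := insert_subset he hsub
      refine (card_le_card (gad_mono this j)).trans ?_
      simp [B, card_P]
    · rw [card_insert_of_notMem heI]; omega
    · intro h
      have := card_insert_of_notMem heI
      rw [h, card_B] at this
      omega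
  · -- `Z` is not the hidden set
    have hle : I.card ≤ a Z := by
      rw [hIsum, a]
      refine add_le_add (sum_le_sum fun j _ => le_min (hI.1 j) (card_le_card (gad_mono hsub j)))
        (card_le_card (res_mono hsub))
    refine le_antisymm (le_min hI.2.1 hle) ?_
    by_contra hcon
    push Not at hcon
    have hlt : I.card < 5 * n + 2 := lt_of_lt_of_le hcon (min_le_left _ _)
    have hlt2 : I.card < a Z := lt_of_lt_of_le hcon (min_le_right _ _)
    -- no element of `Z \ I` can be added to `I` without overfilling a gadget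
    have hfull : ∀ e ∈ Z, e ∉ I → ∃ j, 3 < (gad (insert e I) j).card := by
      intro e he heI
      by_contra hno
      push Not at hno
      have hBx : insert e I = B x := by
        by_contra hne
        exact hmax e he heI ⟨hno, by rw [card_insert_of_notMem heI]; omega, hne⟩
      have hIc : I.card = 5 * n + 1 := by
        have := card_B x
        rw [← hBx, card_insert_of_notMem heI] at this
        omega
      have hIB : I ⊆ B x := by rw [← hBx]; exact subset_insert _ _
      have hnot : ¬ Z ⊆ B x := by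
        intro hs
        refine hZ (Subset.antisymm hs ?_)
        rw [← hBx]
        exact insert_subset he hsub
      obtain ⟨e', he'Z, he'B⟩ := not_subset.1 hnot
      exact hmax e' he'Z (fun h => he'B (hIB h)) (swap_ind x hIB hIc he'B)
    have h1 : ∀ j, min 3 (gad Z j).card ≤ (gad I j).card := by
      intro j
      by_cases hs : gad Z j ⊆ gad I j
      · exact (min_le_right _ _).trans (card_le_card hs)
      · obtain ⟨i, hiZ, hiI⟩ := not_subset.1 hs
        rw [mem_gad] at hiZ
        have hiI' : (Sum.inl (j, i) : T n) ∉ I := fun h => hiI (mem_gad.2 h)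
        obtain ⟨j', hj'⟩ := hfull _ hiZ hiI'
        rw [gad_insert_inl] at hj'
        split_ifs at hj' with h
        · subst h
          rw [card_insert_of_notMem hiI] at hj'
          exact (min_le_left _ _).trans (by omega)
        · have := hI.1 j'
          omega
    have h2 : res Z ⊆ res I := by
      intro i hi
      rw [mem_res] at hi ⊢
      by_contra hiI
      obtain ⟨j', hj'⟩ := hfull _ hi hiI
      rw [gad_insert_inr] at hj'
      have := hI.1 j'
      omega
    have h5 := card_le_card h2
    have h6 : ∑ j, min 3 (gad Z j).card ≤ ∑ j, (gad I j).card := sum_le_sum fun j _ => h1 j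
    rw [a] at hlt2
    omega

/-! ### The instance and its optimal solutions -/

/-- the multiplicity parameter -/
def L (n : ℕ) : ℕ := 3 * n + 2

/-- the number of copies of the whole ground set in the instance -/
def s (n : ℕ) : ℕ := (8 * n - 10) * L n + 1

/-- side `b` of the gadget `j` as a subset of the ground set -/
noncomputable def side {n : ℕ} (j : Fin n) (b : Bool) : Finset (T n) :=
  mk (fun j' => if j' = j then P b else ∅) ∅

/-- the elements outside the gadgets -/
noncomputable def F0 (n : ℕ) : Finset (T n) := mk (fun _ => ∅) univ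

/-- index type of the instance -/
abbrev Idx (n : ℕ) : Type := ((Fin n × Bool) × Fin (4 * L n)) ⊕ (Unit ⊕ Fin (s n))

/-- the sets of the instance -/
noncomputable def inst (n : ℕ) : Idx n → Finset (T n) :=
  Sum.elim (fun p => side p.1.1 p.1.2) (Sum.elim (fun _ => F0 n) (fun _ => univ))

/-- the objective function for an arbitrary finite index type -/
def PhiG {S ι : Type} [DecidableEq S] [Fintype ι] (r : Finset S → ℕ) (F : ι → Finset S)
    (H : Finset S) : ℤ :=
  2 * ∑ i, (r (F i ∪ H) : ℤ) - (Fintype.card ι : ℤ) * (r H : ℤ)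

lemma gad_side_union {n : ℕ} (j : Fin n) (b : Bool) (H : Finset (T n)) (j' : Fin n) :
    gad (side j b ∪ H) j' = if j' = j then P b ∪ gad H j else gad H j' := by
  ext i
  by_cases h : j' = j
  · subst h; simp [side]
  · simp [side, h]

lemma res_side_union {n : ℕ} (j : Fin n) (b : Bool) (H : Finset (T n)) :
    res (side j b ∪ H) = res H := by
  ext i; simp [side]

lemma gad_F0_union {n : ℕ} (H : Finset (T n)) (j : Fin n) : gad (F0 n ∪ H) j = gad H j := by
  ext i; simp [F0]

lemma res_F0_union {n : ℕ} (H : Finset (T n)) : res (F0 n ∪ H) = univ := by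
  ext i; simp [F0]

lemma a_side_union {n : ℕ} (j : Fin n) (b : Bool) (H : Finset (T n)) :
    (a (side j b ∪ H) : ℤ) =
      a H + ((min 3 (P b ∪ gad H j).card : ℕ) - (min 3 (gad H j).card : ℕ)) := by
  have h : ∑ j', (((min 3 (gad (side j b ∪ H) j').card : ℕ) : ℤ) -
      ((min 3 (gad H j').card : ℕ) : ℤ)) =
      ((min 3 (P b ∪ gad H j).card : ℕ) - (min 3 (gad H j).card : ℕ)) := by
    rw [Finset.sum_eq_single j]
    · rw [gad_side_union, if_pos rfl]
    · intro j' _ hj'
      rw [gad_side_union, if_neg hj', sub_self]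
    · intro h; exact absurd (mem_univ j) h
  rw [sum_sub_distrib] at h
  rw [a, a, res_side_union]
  push_cast at h ⊢
  linarith

/-- the cost of a gadget -/
def cost (W : Finset (Fin 4)) : ℤ :=
  4 * (((min 3 (P false ∪ W).card : ℕ) - (min 3 W.card : ℕ)) +
    ((min 3 (P true ∪ W).card : ℕ) - (min 3 W.card : ℕ))) + 5 * (min 3 W.card : ℕ)

lemma cost_ge : ∀ W : Finset (Fin 4), 14 ≤ cost W := by decide

lemma cost_eq : ∀ W : Finset (Fin 4), cost W ≤ 14 → ∃ b, W = P b := by decide

lemma rk_mono {n : ℕ} (x : Fin n → Bool) {Z W : Finset (T n)} (h : Z ⊆ W) :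
    rk (Mx x) Z ≤ rk (Mx x) W := by
  have h1 : (Mx x).eRk (Z : Set (T n)) ≤ (Mx x).eRk (W : Set (T n)) :=
    (Mx x).eRk_mono (by exact_mod_cast h)
  refine ENat.toNat_le_toNat h1 ?_
  refine ne_of_lt (lt_of_le_of_lt ((Mx x).eRk_le_encard _) ?_)
  simp

lemma PhiG_eq {n : ℕ} (hn : 2 ≤ n) (x : Fin n → Bool) (H : Finset (T n)) :
    PhiG (rk (Mx x)) (inst n) H =
      2 * ((L n : ℤ) * (4 * (∑ j, ∑ b, ((rk (Mx x) (side j b ∪ H) : ℤ) - rk (Mx x) H)) +
        5 * rk (Mx x) H) + ((rk (Mx x) (F0 n ∪ H) : ℤ) - rk (Mx x) H) +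
        (s n : ℤ) * rk (Mx x) univ) := by
  have hs : (s n : ℤ) = (8 * (n : ℤ) - 10) * (L n : ℤ) + 1 := by
    rw [s]
    have : 10 ≤ 8 * n := by omega
    push_cast [Nat.cast_sub this]
    ring
  have hcard : (Fintype.card (Idx n) : ℤ) = (n : ℤ) * 2 * (4 * (L n : ℤ)) + (1 + (s n : ℤ)) := by
    simp [Idx]
  have hsum : ∑ i, (rk (Mx x) (inst n i ∪ H) : ℤ) =
      4 * (L n : ℤ) * (∑ j, ∑ b, (rk (Mx x) (side j b ∪ H) : ℤ)) +
        ((rk (Mx x) (F0 n ∪ H) : ℤ) + (s n : ℤ) * rk (Mx x) univ) := by
    have huniv : (univ : Finset (T n)) ∪ H = univ := by ext; simp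
    rw [Fintype.sum_sum_type, Fintype.sum_sum_type]
    simp only [inst, Sum.elim_inl, Sum.elim_inr]
    rw [Fintype.sum_prod_type, Fintype.sum_prod_type]
    simp only [Finset.sum_const, card_univ, Fintype.card_fin, Fintype.card_unit, nsmul_eq_mul,
      huniv, Nat.cast_mul, Nat.cast_ofNat, Nat.cast_one, one_mul, ← Finset.mul_sum]
  have hsum2 : ∑ j : Fin n, ∑ b : Bool, ((rk (Mx x) (side j b ∪ H) : ℤ) - rk (Mx x) H) =
      ∑ j : Fin n, ∑ b : Bool, (rk (Mx x) (side j b ∪ H) : ℤ) - (n : ℤ) * 2 * rk (Mx x) H := by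
    simp only [sum_sub_distrib, sum_const, card_univ, Fintype.card_bool, Fintype.card_fin,
      nsmul_eq_mul]
    push_cast
    ring
  rw [PhiG, hsum, hcard, hsum2, hs]
  ring

lemma rk_B {n : ℕ} (x : Fin n → Bool) : rk (Mx x) (B x) = 5 * n + 1 := by
  rw [rk_eq, if_pos rfl]

lemma Hx_ne_B {n : ℕ} (x y : Fin n → Bool) : Hx x ≠ B y := by
  intro h
  have := congrArg res h
  rw [Hx, B, res_mk, res_mk] at this
  have h2 : (⟨0, by omega⟩ : Fin (3 * n + 2)) ∈ (∅ : Finset (Fin (3 * n + 2))) := by
    rw [this]; exact mem_univ _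
  simp at h2

lemma F0_union_Hx {n : ℕ} (x : Fin n → Bool) : F0 n ∪ Hx x = B x := by
  apply ext_parts
  · intro j; rw [gad_F0_union]; simp [Hx, B]
  · rw [res_F0_union]; simp [B]

lemma a_Hx {n : ℕ} (x : Fin n → Bool) : a (Hx x) = 2 * n := by
  simp [a, Hx, card_P]
  ring

lemma P_union_P (b : Bool) : (P b ∪ P b) = P b := union_self _

lemma rk_side_Hx {n : ℕ} (x : Fin n → Bool) (j : Fin n) :
    ∑ b, ((rk (Mx x) (side j b ∪ Hx x) : ℤ) - rk (Mx x) (Hx x)) = 1 := by
  have key : ∀ b, (rk (Mx x) (side j b ∪ Hx x) : ℤ) - rk (Mx x) (Hx x) =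
      (min 3 (P b ∪ P (x j)).card : ℕ) - (min 3 (P (x j)).card : ℕ) := by
    intro b
    have hne : side j b ∪ Hx x ≠ B x := by
      intro h
      have := congrArg res h
      rw [res_side_union, Hx, B, res_mk, res_mk] at this
      have h2 : (⟨0, by omega⟩ : Fin (3 * n + 2)) ∈ (∅ : Finset (Fin (3 * n + 2))) := by
        rw [this]; exact mem_univ _
      simp at h2
    have h1 := a_side_union j b (Hx x)
    have h2 := a_Hx x
    have hg : gad (Hx x) j = P (x j) := by simp [Hx]
    rw [hg] at h1
    have h3 : min 3 (P b ∪ P (x j)).card ≤ 3 := min_le_left _ _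
    have h4 : a (side j b ∪ Hx x) ≤ 5 * n + 2 := by
      have hn : 1 ≤ n := by have := j.2; omega
      have h5 : (P (x j)).card = 2 := card_P _
      rw [h5] at h1
      have : (a (side j b ∪ Hx x) : ℤ) ≤ 5 * n + 2 := by
        rw [h1, h2]
        push_cast
        have h3' : ((min 3 (P b ∪ P (x j)).card : ℕ) : ℤ) ≤ 3 := by exact_mod_cast h3
        push_cast at h3'
        norm_num
        linarith
      exact_mod_cast this
    rw [rk_eq, rk_eq, if_neg hne, if_neg (Hx_ne_B x x), min_eq_right h4,
      min_eq_right (by rw [h2]; omega), h1]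
    ring
  simp only [key]
  cases h : x j <;> decide

lemma value_Hx {n : ℕ} (x : Fin n → Bool) :
    ((L n : ℤ) * (4 * (∑ j, ∑ b, ((rk (Mx x) (side j b ∪ Hx x) : ℤ) - rk (Mx x) (Hx x))) +
        5 * rk (Mx x) (Hx x)) + ((rk (Mx x) (F0 n ∪ Hx x) : ℤ) - rk (Mx x) (Hx x))) =
      14 * n * L n + 3 * n + 1 := by
  simp only [rk_side_Hx]
  have h2 := a_Hx x
  have h3 : rk (Mx x) (Hx x) = 2 * n := by
    rw [rk_eq, if_neg (Hx_ne_B x x), h2]
    omega
  rw [F0_union_Hx, rk_B, h3]
  simp
  ring

lemma value_other {n : ℕ} (x : Fin n → Bool) (H : Finset (T n)) (hH : H ≠ Hx x) :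
    14 * (n : ℤ) * L n + 3 * n + 1 <
    ((L n : ℤ) * (4 * (∑ j, ∑ b, ((rk (Mx x) (side j b ∪ H) : ℤ) - rk (Mx x) H)) +
        5 * rk (Mx x) H) + ((rk (Mx x) (F0 n ∪ H) : ℤ) - rk (Mx x) H)) := by
  have hL : (L n : ℤ) = 3 * n + 2 := by rw [L]; push_cast; ring
  have hn0 : (0 : ℤ) ≤ n := Int.natCast_nonneg n
  have hD : (0 : ℤ) ≤ ∑ j, ∑ b, ((rk (Mx x) (side j b ∪ H) : ℤ) - rk (Mx x) H) := by
    refine sum_nonneg fun j _ => sum_nonneg fun b _ => ?_
    have := rk_mono x (subset_union_right : H ⊆ side j b ∪ H)
    have h' : (rk (Mx x) H : ℤ) ≤ rk (Mx x) (side j b ∪ H) := by exact_mod_cast this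
    linarith
  have hE : (0 : ℤ) ≤ (rk (Mx x) (F0 n ∪ H) : ℤ) - rk (Mx x) H := by
    have := rk_mono x (subset_union_right : H ⊆ F0 n ∪ H)
    have h' : (rk (Mx x) H : ℤ) ≤ rk (Mx x) (F0 n ∪ H) := by exact_mod_cast this
    linarith
  by_cases hr : 3 * n + 1 ≤ rk (Mx x) H
  · -- large rank
    have hr' : 3 * (n : ℤ) + 1 ≤ rk (Mx x) H := by exact_mod_cast hr
    rw [hL]
    nlinarith [mul_nonneg (by linarith : (0:ℤ) ≤ 3 * n + 2) hD]
  · push Not at hr
    have hHB : H ≠ B x := by
      rintro rfl
      rw [rk_B] at hr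
      omega
    have hrH : rk (Mx x) H = a H := by
      rw [rk_eq, if_neg hHB] at hr ⊢
      omega
    rw [hrH] at hr
    have hres : res H ≠ univ := by
      intro h
      rw [a, h, card_univ, Fintype.card_fin] at hr
      omega
    have hside : ∀ j b, (rk (Mx x) (side j b ∪ H) : ℤ) - rk (Mx x) H =
        (min 3 (P b ∪ gad H j).card : ℕ) - (min 3 (gad H j).card : ℕ) := by
      intro j b
      have hne : side j b ∪ H ≠ B x := by
        intro h
        have := congrArg res h
        rw [res_side_union, B, res_mk] at this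
        exact hres this
      have h1 := a_side_union j b H
      have h3 : min 3 (P b ∪ gad H j).card ≤ 3 := min_le_left _ _
      have hn : 1 ≤ n := by have := j.2; omega
      have h4 : a (side j b ∪ H) ≤ 5 * n + 2 := by
        have : (a (side j b ∪ H) : ℤ) ≤ 5 * n + 2 := by
          rw [h1]
          have h3' : ((min 3 (P b ∪ gad H j).card : ℕ) : ℤ) ≤ 3 := by exact_mod_cast h3
          have h0 : (0 : ℤ) ≤ ((min 3 (gad H j).card : ℕ) : ℤ) := Int.natCast_nonneg _
          have ha : (a H : ℤ) ≤ 3 * n := by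
            have : a H ≤ 3 * n := by omega
            exact_mod_cast this
          have hn' : (1 : ℤ) ≤ n := by exact_mod_cast hn
          linarith
        exact_mod_cast this
      rw [hrH, rk_eq, if_neg hne, min_eq_right h4, h1]
      ring
    have hval : 4 * (∑ j, ∑ b, ((rk (Mx x) (side j b ∪ H) : ℤ) - rk (Mx x) H)) +
        5 * rk (Mx x) H = ∑ j, cost (gad H j) + 5 * (res H).card := by
      simp only [hside]
      rw [hrH, a]
      push_cast
      rw [mul_add, mul_sum, mul_sum, ← add_assoc, ← sum_add_distrib]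
      congr 1
      refine sum_congr rfl fun j _ => ?_
      rw [Fintype.sum_bool, cost]
      push_cast
      ring
    rw [hval]
    by_cases hlt : 14 * (n : ℤ) < ∑ j, cost (gad H j) + 5 * (res H).card
    · rw [hL]
      nlinarith
    · push Not at hlt
      have hge : ∀ j, 14 ≤ cost (gad H j) := fun j => cost_ge _
      have hsum14 : ∑ _j : Fin n, (14 : ℤ) = 14 * n := by simp; ring
      have hres0 : (res H).card = 0 := by
        have : ∑ _j : Fin n, (14 : ℤ) ≤ ∑ j, cost (gad H j) := sum_le_sum fun j _ => hge j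
        rw [hsum14] at this
        have h0 : (0 : ℤ) ≤ ((res H).card : ℤ) := Int.natCast_nonneg _
        have : ((res H).card : ℤ) = 0 := by linarith
        exact_mod_cast this
      have hres0' : res H = ∅ := card_eq_zero.1 hres0
      have hall : ∀ j, cost (gad H j) ≤ 14 := by
        intro j
        by_contra hcon
        push Not at hcon
        have : ∑ _j : Fin n, (14 : ℤ) < ∑ j, cost (gad H j) :=
          sum_lt_sum (fun j _ => hge j) ⟨j, mem_univ j, hcon⟩
        rw [hsum14] at this
        have h0 : (0 : ℤ) ≤ ((res H).card : ℤ) := Int.natCast_nonneg _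
        linarith
      have hy : ∀ j, ∃ b, gad H j = P b := fun j => cost_eq _ (hall j)
      choose y hy using hy
      have hHy : H = Hx y := by
        apply ext_parts
        · intro j; rw [hy j]; simp [Hx]
        · rw [hres0']; simp [Hx]
      have hyx : B y ≠ B x := by
        intro h
        apply hH
        rw [hHy]
        apply ext_parts
        · intro j
          have := congrArg (fun Z => gad Z j) h
          simpa [B, Hx] using this
        · simp [Hx]
      have hsum : ∑ j, cost (gad H j) + 5 * ((res H).card : ℤ) = 14 * n := by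
        refine le_antisymm hlt ?_
        have : ∑ _j : Fin n, (14 : ℤ) ≤ ∑ j, cost (gad H j) := sum_le_sum fun j _ => hge j
        rw [hsum14] at this
        have h0 : (0 : ℤ) ≤ ((res H).card : ℤ) := Int.natCast_nonneg _
        linarith
      have hrkF : rk (Mx x) (F0 n ∪ H) = 5 * n + 2 := by
        rw [hHy, F0_union_Hx, rk_eq, if_neg hyx]
        have : a (B y) = 5 * n + 2 := by
          simp [a, B, card_P]
          ring
        rw [this, min_self]
      rw [hsum, hrkF, hrH, hHy, a_Hx]
      push_cast
      linarith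

theorem unique_min {n : ℕ} (hn : 2 ≤ n) (x : Fin n → Bool) (H : Finset (T n)) (hH : H ≠ Hx x) :
    PhiG (rk (Mx x)) (inst n) (Hx x) < PhiG (rk (Mx x)) (inst n) H := by
  rw [PhiG_eq hn, PhiG_eq hn]
  have h1 := value_Hx x
  have h2 := value_other x H hH
  linarith

/-! ### Transport to the ground set `Fin m` -/

lemma B_injective {n : ℕ} : Function.Injective (B : (Fin n → Bool) → Finset (T n)) := by
  intro x y h
  funext j
  have := congrArg (fun Z => gad Z j) h
  simp only [B, gad_mk] at this
  revert this
  cases x j <;> cases y j <;> decide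

lemma Hx_injective {n : ℕ} : Function.Injective (Hx : (Fin n → Bool) → Finset (T n)) := by
  intro x y h
  funext j
  have := congrArg (fun Z => gad Z j) h
  simp only [Hx, gad_mk] at this
  revert this
  cases x j <;> cases y j <;> decide

lemma rk_mapEquiv {S S' : Type} (M : Matroid S) (e : S ≃ S') (A : Finset S') :
    rk (M.mapEquiv e) A = rk M (A.map e.symm.toEmbedding) := by
  classical
  rw [rk, rk]
  congr 1
  obtain ⟨I, hI⟩ := (M.mapEquiv e).exists_isBasis' (A : Set S')
  rw [← hI.encard_eq_eRk]
  have h1 : (M.mapEquiv e).IsBasis I ((A : Set S') ∩ (M.mapEquiv e).E) := hI.isBasis_inter_ground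
  rw [Matroid.mapEquiv_isBasis_iff] at h1
  have h2 : e.symm '' ((A : Set S') ∩ (M.mapEquiv e).E) =
      ((A.map e.symm.toEmbedding : Finset S) : Set S) ∩ M.E := by
    ext t
    simp only [Matroid.mapEquiv_ground_eq, Set.mem_image, Set.mem_inter_iff, mem_coe, coe_map,
      Equiv.coe_toEmbedding]
    constructor
    · rintro ⟨u, ⟨hu, v, hv, rfl⟩, rfl⟩
      exact ⟨⟨_, hu, rfl⟩, by simpa using hv⟩
    · rintro ⟨⟨u, hu, rfl⟩, hE⟩
      exact ⟨u, ⟨hu, _, hE, by simp⟩, rfl⟩
  rw [h2] at h1
  rw [← M.eRk_inter_ground, ← h1.encard_eq_eRk]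
  exact (e.symm.injective.encard_image I).symm

lemma map_union_map {S S' : Type} [DecidableEq S] [DecidableEq S'] (e : S ≃ S') (A : Finset S)
    (H : Finset S') : (A.map e.toEmbedding ∪ H).map e.symm.toEmbedding =
      A ∪ H.map e.symm.toEmbedding := by
  ext t
  simp

/-- The core: on `7n+2` elements there is an instance and `2^n` matroids such that an algorithm
making at most `Q` calls solves at most `Q+1` of the `2^n` problems. -/
theorem core {n : ℕ} (hn : 2 ≤ n) :
    ∃ (F : Fin (Fintype.card (Idx n)) → Finset (Fin (7 * n + 2)))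
      (M : (Fin n → Bool) → Matroid (Fin (7 * n + 2))), (∀ x, (M x).E = Set.univ) ∧
      ∀ (t : QueryTree (7 * n + 2)) (Q : ℕ),
        (univ.filter (fun x => t.calls (rk (M x)) ≤ Q ∧
          ∀ H, Phi (rk (M x)) F (t.run (rk (M x))) ≤ Phi (rk (M x)) F H)).card ≤ Q + 1 := by
  classical
  have hc : Fintype.card (T n) = 7 * n + 2 := by simp [T]; ring
  let e : T n ≃ Fin (7 * n + 2) := Fintype.equivFinOfCardEq hc
  let e2 : Idx n ≃ Fin (Fintype.card (Idx n)) := Fintype.equivFin _
  let F : Fin (Fintype.card (Idx n)) → Finset (Fin (7 * n + 2)) :=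
    fun i => (inst n (e2.symm i)).map e.toEmbedding
  let M : (Fin n → Bool) → Matroid (Fin (7 * n + 2)) := fun x => (Mx x).mapEquiv e
  refine ⟨F, M, fun x => ?_, ?_⟩
  · show ((Mx x).mapEquiv e).E = Set.univ
    rw [Matroid.mapEquiv_ground_eq, Mx_ground]
    simp
  · have hrk : ∀ x A, rk (M x) A = rk (Mx x) (A.map e.symm.toEmbedding) :=
      fun x A => rk_mapEquiv (Mx x) e A
    have hPhi : ∀ x H, Phi (rk (M x)) F H =
        PhiG (rk (Mx x)) (inst n) (H.map e.symm.toEmbedding) := by
      intro x H
      rw [Phi, PhiG]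
      simp only [hrk]
      congr 2
      refine Fintype.sum_equiv e2.symm _ _ fun i => ?_
      rw [map_union_map]
    have hmin : ∀ x H, (∀ H', Phi (rk (M x)) F H ≤ Phi (rk (M x)) F H') →
        H = (Hx x).map e.toEmbedding := by
      intro x H hH
      by_contra hne
      have hne' : H.map e.symm.toEmbedding ≠ Hx x := by
        intro h
        apply hne
        rw [← h]
        ext t; simp
      have h1 := unique_min hn x _ hne'
      have h2 := hH ((Hx x).map e.toEmbedding)
      rw [hPhi, hPhi] at h2
      have h3 : ((Hx x).map e.toEmbedding).map e.symm.toEmbedding = Hx x := by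
        ext t; simp
      rw [h3] at h2
      exact absurd h1 (not_lt.2 h2)
    intro t Q
    have hadv := count_success (X := Fin n → Bool)
      (fun A => min (5 * n + 2) (a (A.map e.symm.toEmbedding)))
      (fun x => rk (M x)) (fun x => (B x).map e.toEmbedding) (fun x => (Hx x).map e.toEmbedding)
      (fun x y h => B_injective (map_injective _ h)) (fun x y h => Hx_injective (map_injective _ h))
      (by
        intro x A hA
        rw [hrk, rk_eq, if_neg]
        intro h
        apply hA
        rw [← h]
        ext t; simp) t Q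
    refine le_trans (card_le_card ?_) hadv
    intro x hx
    simp only [mem_filter, mem_univ, true_and] at hx ⊢
    exact ⟨hmin x _ hx.2, hx.1⟩

/-! ### Growth estimates -/

lemma card_Idx {n : ℕ} (hn : 2 ≤ n) : Fintype.card (Idx n) ≤ 50 * n ^ 2 := by
  have h : Fintype.card (Idx n) = n * 2 * (4 * L n) + (1 + s n) := by simp [Idx]
  rw [h, s, L]
  obtain ⟨k, rfl⟩ : ∃ k, n = k + 2 := ⟨n - 2, by omega⟩
  have : 8 * (k + 2) - 10 = 8 * k + 6 := by omega
  rw [this]
  nlinarith

lemma exists_large (c d : ℕ) (N : ℕ) : ∃ n : ℕ, 2 ≤ n ∧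
    N * (c * (7 * n + 2 + 50 * n ^ 2) ^ d + c + 1) < 2 ^ n := by
  have h := tendsto_pow_const_div_const_pow_of_one_lt (2 * d) (r := (2 : ℝ)) (by norm_num)
  have hC : (0 : ℝ) < 1 / (N * (c * 60 ^ d + c + 1) + 1) := by positivity
  have h2 := (h.eventually (gt_mem_nhds hC)).and (Filter.eventually_ge_atTop 2)
  obtain ⟨n, hn1, hn2⟩ := h2.exists
  refine ⟨n, hn2, ?_⟩
  have hb : 7 * n + 2 + 50 * n ^ 2 ≤ 60 * n ^ 2 := by nlinarith
  have hpow : (0 : ℝ) < 2 ^ n := by positivity
  have hC' : (0 : ℝ) < N * (c * 60 ^ d + c + 1) + 1 := by positivity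
  rw [div_lt_div_iff₀ hpow hC', one_mul] at hn1
  have hn1' : n ^ (2 * d) * (N * (c * 60 ^ d + c + 1) + 1) < 2 ^ n := by exact_mod_cast hn1
  have h1n : 1 ≤ n ^ (2 * d) := Nat.one_le_pow _ _ (by omega)
  calc N * (c * (7 * n + 2 + 50 * n ^ 2) ^ d + c + 1)
      ≤ N * (c * (60 * n ^ 2) ^ d + c + 1) := by gcongr
    _ = N * (c * 60 ^ d * n ^ (2 * d) + c + 1) := by rw [mul_pow, ← pow_mul]; ring
    _ ≤ n ^ (2 * d) * (N * (c * 60 ^ d + c + 1) + 1) := by
        have : c + 1 ≤ (c + 1) * n ^ (2 * d) := Nat.le_mul_of_pos_right _ (by omega)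
        nlinarith [Nat.mul_le_mul_left N this]
    _ < 2 ^ n := hn1'

/-! ### The result -/

/-- On the rank oracle of the matroid `M`, the algorithm `t` makes at most `q` oracle calls and
its output minimises `Φ`. -/
def Solves {m k : ℕ} (M : Matroid (Fin m)) (F : Fin k → Finset (Fin m)) (q : ℕ)
    (t : QueryTree m) : Prop :=
  t.calls (rk M) ≤ q ∧ ∀ H : Finset (Fin m), Phi (rk M) F (t.run (rk M)) ≤ Phi (rk M) F H

/-- **No polynomial rank-oracle algorithm for the matroid median problem exists**, not even a randomised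
one with a positive constant probability of success. A randomised algorithm is a family of
probability distributions `alg m k F` on deterministic adaptive oracle algorithms (query trees)
for the ground set `Fin m`, one for each input `F₁, …, F_k`. There are no such family, no
polynomial bound `c (m + k)^d + c` and no `ε > 0` such that, for every matroid on the ground set
`Fin m` and every `F₁, …, F_k`, the algorithm finds a minimiser of `Φ` within the bound on the
number of oracle calls with probability at least `ε`. -/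
theorem result (ε : ENNReal) (hε : ε ≠ 0) :
    ¬ ∃ (alg : ∀ m k : ℕ, (Fin k → Finset (Fin m)) → PMF (QueryTree m)) (c d : ℕ),
      ∀ (m k : ℕ) (F : Fin k → Finset (Fin m)) (M : Matroid (Fin m)), M.E = Set.univ →
        ε ≤ (alg m k F).toOuterMeasure {t | Solves M F (c * (m + k) ^ d + c) t} := by
  classical
  rintro ⟨alg, c, d, h⟩
  obtain ⟨N, hN⟩ := ENNReal.exists_inv_nat_lt hε
  obtain ⟨n, hn, hbig⟩ := exists_large c d N
  obtain ⟨F, M, hME, hcore⟩ := core hn
  obtain ⟨Q, hQ⟩ : ∃ Q, Q = c * (7 * n + 2 + Fintype.card (Idx n)) ^ d + c := ⟨_, rfl⟩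
  have hQle : N * (Q + 1) < 2 ^ n := by
    refine lt_of_le_of_lt ?_ hbig
    have := card_Idx hn
    rw [hQ]
    gcongr
  have hsucc : ∀ x, ε ≤ (alg _ _ F).toOuterMeasure {t | Solves (M x) F Q t} := by
    intro x
    rw [hQ]
    exact h _ _ F (M x) (hME x)
  -- averaging over the matroids
  have h1 : (2 ^ n : ENNReal) * ε ≤
      ∑ x : Fin n → Bool, (alg _ _ F).toOuterMeasure {t | Solves (M x) F Q t} := by
    calc (2 ^ n : ENNReal) * ε = ∑ _x : Fin n → Bool, ε := by simp
      _ ≤ _ := Finset.sum_le_sum fun x _ => hsucc x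
  have h2 : ∑ x : Fin n → Bool, (alg _ _ F).toOuterMeasure {t | Solves (M x) F Q t} ≤
      (Q + 1 : ℕ) := by
    simp only [PMF.toOuterMeasure_apply]
    rw [← Summable.tsum_finsetSum fun _ _ => ENNReal.summable]
    calc ∑' t, ∑ x : Fin n → Bool, Set.indicator {t | Solves (M x) F Q t} (alg _ _ F) t
        ≤ ∑' t, (Q + 1 : ℕ) * (alg _ _ F) t := by
          refine ENNReal.tsum_le_tsum fun t => ?_
          have : ∑ x : Fin n → Bool, Set.indicator {t | Solves (M x) F Q t} (alg _ _ F) t =
              (univ.filter (fun x => Solves (M x) F Q t)).card * (alg _ _ F) t := by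
            rw [card_filter, Nat.cast_sum, Finset.sum_mul]
            refine Finset.sum_congr rfl fun x _ => ?_
            by_cases hx : Solves (M x) F Q t <;> simp [Set.indicator, hx]
          rw [this]
          gcongr
          refine le_trans (le_of_eq ?_) (hcore t Q)
          unfold Solves
          congr
      _ = (Q + 1 : ℕ) := by rw [ENNReal.tsum_mul_left, PMF.tsum_coe, mul_one]
  have h3 : (2 ^ n : ENNReal) * ε ≤ (Q + 1 : ℕ) := h1.trans h2
  have hN0 : N ≠ 0 := by
    rintro rfl
    simp at hN
  have h4 : (2 ^ n : ENNReal) * (N : ENNReal)⁻¹ ≤ (Q + 1 : ℕ) := le_trans (by gcongr) h3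
  have h5 : (2 ^ n : ENNReal) ≤ N * (Q + 1 : ℕ) := by
    calc (2 ^ n : ENNReal) = N * ((2 ^ n : ENNReal) * (N : ENNReal)⁻¹) := by
          rw [mul_comm (2 ^ n : ENNReal), ← mul_assoc, ENNReal.mul_inv_cancel (by exact_mod_cast hN0)
            (ENNReal.natCast_ne_top N), one_mul]
      _ ≤ N * (Q + 1 : ℕ) := by gcongr
  have h6 : 2 ^ n ≤ N * (Q + 1) := by exact_mod_cast h5
  omega

/-- The deterministic special case (point masses), spelled out. -/
theorem deterministic :
    ¬ ∃ (alg : ∀ m k : ℕ, (Fin k → Finset (Fin m)) → QueryTree m) (c d : ℕ),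
      ∀ (m k : ℕ) (F : Fin k → Finset (Fin m)) (M : Matroid (Fin m)), M.E = Set.univ →
        Solves M F (c * (m + k) ^ d + c) (alg m k F) := by
  classical
  rintro ⟨alg, c, d, h⟩
  refine result 1 one_ne_zero ⟨fun m k F => PMF.pure (alg m k F), c, d, fun m k F M hM => ?_⟩
  rw [PMF.toOuterMeasure_pure_apply, if_pos]
  exact h m k F M hM

end Pool.Agent.Results.MP_8f56b8_lc.OracleLowerBound
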